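import Mathlib

set_option autoImplicit false
set_option linter.unusedVariables false
set_option linter.unusedSectionVars false

universe u

open FirstOrder

namespace Pool.Agent.Results.MP_f4a2a6_lc.HalfSpaces

section defs

/-- The fractional Helly property `FHP(k, α, β)` of the family of sets `S y`: for all `n` and all
members `S (y 0), ..., S (y (n - 1))` (repetitions allowed), if at least `α * choose n k` of the
`k`-element sets of indices have a nonempty intersection, then there is a set of at least `β * n`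
indices with a nonempty intersection. -/
def FHPFamily {X Y : Type u} (S : Y → Set X) (k : ℕ) (α β : ℝ) : Prop :=
  ∀ (n : ℕ) (y : Fin n → Y),
    α * (n.choose k : ℝ) ≤
      ({J : Finset (Fin n) | J.card = k ∧ (⋂ j ∈ J, S (y j)).Nonempty}.ncard : ℝ) →
    ∃ J : Finset (Fin n), β * n ≤ (J.card : ℝ) ∧ (⋂ j ∈ J, S (y j)).Nonempty

variable {L : FirstOrder.Language.{0, 0}} {a b : ℕ} (N : Type u) [L.Structure N]

/-- The set defined by the instance `φ(x, y)` of the partitioned formula `φ`. -/
def inst (φ : L.Formula (Fin a ⊕ Fin b)) (y : Fin b → N) : Set (Fin a → N) :=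
  {x | φ.Realize (Sum.elim x y)}

/-- The formula `φ` has the fractional Helly property in `N`, with fractional Helly number `k`: for
every `α > 0` there is `β > 0` with `FHP(k, α, β)`. -/
def HasFHP (φ : L.Formula (Fin a ⊕ Fin b)) (k : ℕ) : Prop :=
  ∀ α : ℝ, 0 < α → ∃ β : ℝ, 0 < β ∧ FHPFamily (inst N φ) k α β

/-- `p` is (the set of parameters of) a consistent set `{φ(x, a_i) : i < k}` with all `a_i` in
`A`. -/
def IsType (φ : L.Formula (Fin a ⊕ Fin b)) (k : ℕ) (A : Finset (Fin b → N))
    (p : Finset (Fin b → N)) : Prop :=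
  (∃ c : Fin k → Fin b → N, (∀ i, c i ∈ A) ∧ (p : Set (Fin b → N)) = Set.range c) ∧
    (⋂ y ∈ p, inst N φ y).Nonempty

/-- The types `p` and `q` are `1`-inconsistent: some `φ(x, y)` in `p` and `φ(x, z)` in `q` are
inconsistent. -/
def OneInconsistent (φ : L.Formula (Fin a ⊕ Fin b)) (p q : Finset (Fin b → N)) : Prop :=
  ∃ y ∈ p, ∃ z ∈ q, inst N φ y ∩ inst N φ z = ∅

/-- The function `f_φ` is polynomially bounded: there is `d` such that for every `k ≥ 1` there is
`C` such that every family of pairwise `1`-inconsistent types `{φ(x, a_i) : i < k}` over a set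
`A` of `l` parameters has at most `C * l ^ d` members. (For `k = 0` and `l = 0` there is one type,
the empty one, so that `k = 0` has to be excluded.) -/
def PolynomiallyBounded (φ : L.Formula (Fin a ⊕ Fin b)) : Prop :=
  ∃ d : ℕ, ∀ k : ℕ, 1 ≤ k → ∃ C : ℕ, ∀ (A : Finset (Fin b → N)) (S : Finset (Finset (Fin b → N))),
    (∀ p ∈ S, IsType N φ k A p) → (∀ p ∈ S, ∀ q ∈ S, p ≠ q → OneInconsistent N φ p q) →
      S.card ≤ C * A.card ^ d

end defs

/-- one binary relation symbol -/
inductive Rl : ℕ → Type
  | r : Rl 2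

/-- the language with one binary relation symbol -/
def LR : FirstOrder.Language.{0, 0} := ⟨fun _ => Empty, Rl⟩

/-- points and half-spaces -/
abbrev MM : Type := (ℕ → ℕ∞) ⊕ (ℕ × ℕ × Bool)

/-- a point lies in a half-space -/
def Rin : MM → MM → Prop
  | _, Sum.inl _ => True
  | Sum.inl x, Sum.inr (i, a, true) => (a : ℕ∞) ≤ x i
  | Sum.inl x, Sum.inr (i, a, false) => x i ≤ (a : ℕ∞)
  | Sum.inr _, Sum.inr _ => False

instance strMM : LR.Structure MM where
  funMap := fun f => f.elim
  RelMap := fun R v => match R, v with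
    | Rl.r, v => Rin (v 0) (v 1)

/-- the formula -/
def phi : LR.Formula (Fin 1 ⊕ Fin 1) :=
  Language.Relations.formula₂ (L := LR) Rl.r (Language.Term.var (Sum.inl 0))
    (Language.Term.var (Sum.inr 0))

/-- `∀ y (R(u, y) ∨ R(v, y))` -/
def psi1 : LR.Formula (Fin 2) :=
  Language.BoundedFormula.all
    ((Language.Relations.boundedFormula₂ (L := LR) Rl.r
        (Language.Term.var (Sum.inl 0) : LR.Term (Fin 2 ⊕ Fin 1)) (Language.Term.var (Sum.inr 0))) ⊔
      (Language.Relations.boundedFormula₂ (L := LR) Rl.r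
        (Language.Term.var (Sum.inl 1) : LR.Term (Fin 2 ⊕ Fin 1)) (Language.Term.var (Sum.inr 0))))

/-- `∃ x (R(x, u) ∧ R(x, v))` -/
def psi2 : LR.Formula (Fin 2) :=
  Language.BoundedFormula.ex
    ((Language.Relations.boundedFormula₂ (L := LR) Rl.r
        (Language.Term.var (Sum.inr 0) : LR.Term (Fin 2 ⊕ Fin 1)) (Language.Term.var (Sum.inl 0))) ⊓
      (Language.Relations.boundedFormula₂ (L := LR) Rl.r
        (Language.Term.var (Sum.inr 0) : LR.Term (Fin 2 ⊕ Fin 1)) (Language.Term.var (Sum.inl 1))))

section realize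

variable {N : Type u} [LR.Structure N]

/-- the relation in a structure -/
def RR (x y : N) : Prop := Language.Structure.RelMap (L := LR) Rl.r ![x, y]

theorem mem_inst (y : Fin 1 → N) (x : Fin 1 → N) : x ∈ inst N phi y ↔ RR (x 0) (y 0) := by
  unfold inst phi RR
  rw [Set.mem_setOf_eq, Language.Formula.realize_rel₂]
  rfl

theorem realize_psi1 (v : Fin 2 → N) : psi1.Realize v ↔ ∀ y, RR (v 0) y ∨ RR (v 1) y := by
  unfold psi1 Language.Formula.Realize RR
  rw [Language.BoundedFormula.realize_all]
  refine forall_congr' fun y => ?_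
  rw [Language.BoundedFormula.realize_sup, Language.BoundedFormula.realize_rel₂,
    Language.BoundedFormula.realize_rel₂]
  rfl

theorem realize_psi2 (v : Fin 2 → N) : psi2.Realize v ↔ ∃ x, RR x (v 0) ∧ RR x (v 1) := by
  unfold psi2 Language.Formula.Realize RR
  rw [Language.BoundedFormula.realize_ex]
  refine exists_congr fun y => ?_
  rw [Language.BoundedFormula.realize_inf, Language.BoundedFormula.realize_rel₂,
    Language.BoundedFormula.realize_rel₂]
  rfl

end realize

theorem RR_MM (x y : MM) : RR x y ↔ Rin x y := Iff.rfl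

/-- **Disproof.** There are a structure `M` and a formula `φ(x, y)` such that in every elementary
extension `N` of `M` (in particular in a monster model of the complete theory of `M`) the formula
`φ` has the fractional Helly property, with every fractional Helly number `k`, but `f_φ` is not
polynomially bounded. -/
theorem result : ∃ (L : FirstOrder.Language.{0, 0}) (M : Type) (_ : L.Structure M)
    (φ : L.Formula (Fin 1 ⊕ Fin 1)), ∀ (N : Type u) [L.Structure N], (M ↪ₑ[L] N) →
      (∀ k : ℕ, HasFHP N φ k) ∧ ¬ PolynomiallyBounded N φ := by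
  classical
  refine ⟨LR, MM, strMM, phi, fun N _ e => ⟨?_, ?_⟩⟩
  · intro k α hα
    refine ⟨1 / 2, by norm_num, ?_⟩
    intro n y _
    -- the two points
    have h1 : psi1.Realize (![Sum.inl (fun _ => ⊤), Sum.inl (fun _ => 0)] : Fin 2 → MM) := by
      rw [realize_psi1]
      intro y
      rw [RR_MM, RR_MM]
      rcases y with y | ⟨i, a, b⟩
      · exact Or.inl trivial
      · cases b
        · right
          show (0 : ℕ∞) ≤ a
          exact zero_le
        · left
          show (a : ℕ∞) ≤ ⊤
          exact le_top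
    rw [← e.map_formula, realize_psi1] at h1
    set x₀ := (e ∘ (![Sum.inl (fun _ => ⊤), Sum.inl (fun _ => 0)] : Fin 2 → MM)) 0
    set x₁ := (e ∘ (![Sum.inl (fun _ => ⊤), Sum.inl (fun _ => 0)] : Fin 2 → MM)) 1
    let J : N → Finset (Fin n) := fun x => Finset.univ.filter (fun j => RR x (y j 0))
    have hJ : ∀ x, (⋂ j ∈ J x, inst N phi (y j)).Nonempty := by
      intro x
      refine ⟨fun _ => x, Set.mem_iInter₂.2 fun j hj => ?_⟩
      rw [mem_inst]
      exact (Finset.mem_filter.1 hj).2
    have hcard : n ≤ (J x₀).card + (J x₁).card := by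
      have h2 : (Finset.univ : Finset (Fin n)) ⊆ J x₀ ∪ J x₁ := by
        intro j _
        rw [Finset.mem_union, Finset.mem_filter, Finset.mem_filter]
        rcases h1 (y j 0) with h | h
        · exact Or.inl ⟨Finset.mem_univ _, h⟩
        · exact Or.inr ⟨Finset.mem_univ _, h⟩
      have h3 := (Finset.card_le_card h2).trans (Finset.card_union_le _ _)
      rwa [Finset.card_univ, Fintype.card_fin] at h3
    have hcard' : (n : ℝ) ≤ (J x₀).card + (J x₁).card := by exact_mod_cast hcard
    rcases le_total ((J x₀).card : ℝ) ((J x₁).card : ℝ) with h | h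
    · exact ⟨J x₁, by linarith, hJ x₁⟩
    · exact ⟨J x₀, by linarith, hJ x₀⟩
  · rintro ⟨d, hd⟩
    set D := d + 1 with hD
    obtain ⟨C, hC⟩ := hd (D * 2) (by omega)
    set m := C * (D * 2) ^ d + 1 with hm
    -- parameters
    let c : ℕ → ℕ → Bool → Fin 1 → N := fun i a b _ => e (Sum.inr (i, a, b))
    have hcons : ∀ (x : ℕ → ℕ∞) (i a : ℕ) (b : Bool),
        RR (e (Sum.inl x)) (c i a b 0) ↔ Rin (Sum.inl x) (Sum.inr (i, a, b)) := by
      intro x i a b
      have h1 := e.toEmbedding.map_rel (Rl.r : LR.Relations 2)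
        (![Sum.inl x, Sum.inr (i, a, b)] : Fin 2 → MM)
      have h2 : (e.toEmbedding ∘ (![Sum.inl x, Sum.inr (i, a, b)] : Fin 2 → MM)) =
          ![e (Sum.inl x), c i a b 0] := by
        funext j
        fin_cases j <;> rfl
      rw [h2] at h1
      exact h1
    have hinc : ∀ i a a', a < a' →
        inst N phi (c i a false) ∩ inst N phi (c i a' true) = ∅ := by
      intro i a a' haa
      rw [Set.eq_empty_iff_forall_notMem]
      rintro x ⟨hx1, hx2⟩
      rw [mem_inst] at hx1 hx2
      have h1 : psi2.Realize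
          (e ∘ (![Sum.inr (i, a, false), Sum.inr (i, a', true)] : Fin 2 → MM)) := by
        rw [realize_psi2]
        exact ⟨x 0, hx1, hx2⟩
      rw [e.map_formula, realize_psi2] at h1
      obtain ⟨z, hz1, hz2⟩ := h1
      rw [RR_MM] at hz1 hz2
      rcases z with z | z
      · have h3 : z i ≤ (a : ℕ∞) := hz1
        have h4 : (a' : ℕ∞) ≤ z i := hz2
        have h5 := h4.trans h3
        rw [Nat.cast_le] at h5
        omega
      · exact hz1
    let A : Finset (Fin 1 → N) :=
      (Finset.univ : Finset (Fin D × Fin m × Bool)).image (fun q => c q.1 q.2.1 q.2.2)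
    have hA : A.card ≤ D * 2 * m := by
      refine Finset.card_image_le.trans ?_
      rw [Finset.card_univ, Fintype.card_prod, Fintype.card_prod, Fintype.card_fin,
        Fintype.card_fin, Fintype.card_bool]
      exact le_of_eq (by ring)
    let P : (Fin D → Fin m) → Finset (Fin 1 → N) := fun t =>
      (Finset.univ : Finset (Fin (D * 2))).image (fun j =>
        c (finProdFinEquiv.symm j).1 (t (finProdFinEquiv.symm j).1)
          (finTwoEquiv (finProdFinEquiv.symm j).2))
    have hPmem : ∀ t (i : Fin D) (b : Bool), c i (t i) b ∈ P t := by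
      intro t i b
      refine Finset.mem_image.2 ⟨finProdFinEquiv (i, finTwoEquiv.symm b), Finset.mem_univ _, ?_⟩
      rw [Equiv.symm_apply_apply, Equiv.apply_symm_apply]
    have hPcons : ∀ t, (⋂ y ∈ P t, inst N phi y).Nonempty := by
      intro t
      refine ⟨fun _ => e (Sum.inl (fun i => if h : i < D then ((t ⟨i, h⟩ : ℕ) : ℕ∞) else 0)),
        Set.mem_iInter₂.2 fun y hy => ?_⟩
      obtain ⟨j, _, rfl⟩ := Finset.mem_image.1 hy
      rw [mem_inst, hcons]
      set i := (finProdFinEquiv.symm j).1
      cases finTwoEquiv (finProdFinEquiv.symm j).2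
      · show (if h : (i : ℕ) < D then ((t ⟨i, h⟩ : ℕ) : ℕ∞) else 0) ≤ _
        rw [dif_pos i.2]
      · show _ ≤ (if h : (i : ℕ) < D then ((t ⟨i, h⟩ : ℕ) : ℕ∞) else 0)
        rw [dif_pos i.2]
    have hsep : ∀ t t', t ≠ t' → OneInconsistent N phi (P t) (P t') := by
      intro t t' htt
      obtain ⟨i, hi⟩ := Function.ne_iff.1 htt
      have hi' : (t i : ℕ) ≠ t' i := fun h => hi (Fin.ext h)
      rcases lt_or_gt_of_ne hi' with h | h
      · exact ⟨_, hPmem t i false, _, hPmem t' i true, hinc _ _ _ h⟩
      · refine ⟨_, hPmem t i true, _, hPmem t' i false, ?_⟩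
        rw [Set.inter_comm]
        exact hinc _ _ _ h
    have hPinj : Function.Injective P := by
      intro t t' htt
      by_contra hne
      obtain ⟨y, hy, z, hz, hyz⟩ := hsep t t' hne
      rw [← htt] at hz
      obtain ⟨x, hx⟩ := hPcons t
      have h1 := Set.mem_iInter₂.1 hx
      exact absurd (show x ∈ inst N phi y ∩ inst N phi z from ⟨h1 y hy, h1 z hz⟩)
        (by rw [hyz]; exact Set.notMem_empty x)
    have hfin := hC A ((Finset.univ : Finset (Fin D → Fin m)).image P) (by
      intro p hp
      obtain ⟨t, _, rfl⟩ := Finset.mem_image.1 hp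
      refine ⟨⟨fun j => c (finProdFinEquiv.symm j).1 (t (finProdFinEquiv.symm j).1)
          (finTwoEquiv (finProdFinEquiv.symm j).2), fun j => ?_, ?_⟩, hPcons t⟩
      · exact Finset.mem_image.2 ⟨(_, _, _), Finset.mem_univ _, rfl⟩
      · simp only [P, Finset.coe_image, Finset.coe_univ, Set.image_univ]) (by
      intro p hp q hq hpq
      obtain ⟨t, _, rfl⟩ := Finset.mem_image.1 hp
      obtain ⟨t', _, rfl⟩ := Finset.mem_image.1 hq
      exact hsep t t' fun h => hpq (by rw [h]))
    rw [Finset.card_image_of_injective _ hPinj, Finset.card_univ, Fintype.card_fun,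
      Fintype.card_fin, Fintype.card_fin] at hfin
    have h1 : C * A.card ^ d ≤ C * (D * 2 * m) ^ d :=
      Nat.mul_le_mul_left _ (Nat.pow_le_pow_left hA d)
    have h2 : C * (D * 2 * m) ^ d = (C * (D * 2) ^ d) * m ^ d := by rw [mul_pow]; ring
    have h3 : m ^ D = m * m ^ d := by rw [hD, pow_succ']
    have h4 : 0 < m ^ d := by positivity
    have h5 : (C * (D * 2) ^ d) * m ^ d < m * m ^ d := by
      apply Nat.mul_lt_mul_of_pos_right _ h4
      omega
    omega

end Pool.Agent.Results.MP_f4a2a6_lc.HalfSpaces
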